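import Mathlib
import Pool.Agent.W54.AD.Fam
import Pool.Agent.W171.EP.PrimesAll

set_option autoImplicit false

/-! # Lenstra's density for `F = ℚ(i)`, `W = ⟨2 (m p) ^ r⟩`, index dividing `2`: almost all primes `p`, with a
power-saving exceptional set, every multiplier `m` and many exponents `r` at once

For the data `F = ℚ(i)`, `C = {complex conjugation}`, `k = 2`, `W = ⟨2 n ^ r⟩` (equivalently `k = 1` and
`W = ⟨-1, 2 n ^ r⟩`) the set of Q1 is the set of the primes `q ≡ 3 mod 4` modulo which `2 n ^ r` has the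
order `q - 1` or `(q - 1) / 2`.  Let `S r n x` be the number of these primes `q ≤ x` and let
`A = ∏_p (1 - 1 / (p (p - 1)))` be Artin's constant.

Let `0 < α < 1 / 4`, `1 / 2 + 2 α < θ < 1` and `C > 1` with `θ (1 - θ) < C (2 θ - 1)` (any `C > 1` if
`θ ≥ 0.6181`).  There is `b > 0` such that for every `ε > 0` there is `δ > 0` such that for every `L` and
all large `y`: for EVERY integer `m` with `1 ≤ m ≤ exp (√y)` and every set `E` of at most `y ^ b` positive
exponents `r`, each with at most `y ^ (1 / 4)` prime factors and with `∑_{l ∣ r, l > L} 1 / l ≤ δ` (sum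
over primes), all but at most `y ^ θ` of the PRIMES `p ≤ y` satisfy `|S r (m p) x - A π(x)| ≤ ε π(x)` for
EVERY exponent `r ∈ E` and for EVERY `x` with `y ^ C ≤ x ≤ exp (y ^ α)`.

The result `ManyExponents` treats the average over all integers up to `N`, with an exceptional set of
`η N` integers.

Libraries: helper54 (the data `Pool.Agent.W54.AD`), helper401 (density theorem of Chebotarev),
helper386, helper771, helper981 (large sieve, local counts), helper923 (theorem of Brun and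
Titchmarsh), helper171 (base `2`, uniformity, large sieve for the multiples of primes). -/

namespace Pool.Agent.Results.MP_48b1c3_nt.ManyExponentsPrimes

open Finset Filter Classical
open Pool.Agent.W171.EP (badG primesAll)
open Pool.Agent.W171.LG (Wr)
open Pool.Agent.W54.AD (datA datA_Q famA_primes)
open Pool.Agent.H771R4.SE (cntE Dat)

/-- the number of primes `q ≤ x`, `q ≡ 3 mod 4`, modulo which `2 n ^ r` has order `q - 1` or
`(q - 1) / 2` -/
noncomputable def S (r n x : ℕ) : ℕ :=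
  ((Finset.range (x + 1)).filter (fun q : ℕ => q.Prime ∧ q % 4 = 3 ∧
    (orderOf ((2 * n ^ r : ℕ) : ZMod q) = q - 1 ∨
      2 * orderOf ((2 * n ^ r : ℕ) : ZMod q) = q - 1))).card

/-- Artin's constant -/
noncomputable def A : ℝ := ∏' p : Nat.Primes, (1 - 1 / (((p : ℕ) : ℝ) * (((p : ℕ) : ℝ) - 1)))

theorem result (α θ C : ℝ) (hα : 0 < α) (hθ : 1 / 2 + 2 * α < θ) (hθ1 : θ < 1) (hC : 1 < C)
    (hCθ : θ * (1 - θ) < C * (2 * θ - 1)) :
    ∃ b : ℝ, 0 < b ∧ ∀ ε : ℝ, 0 < ε → ∃ δ : ℝ, 0 < δ ∧ ∀ L : ℕ, ∃ y₀ : ℕ, ∀ y : ℕ, y₀ ≤ y →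
      ∀ m : ℕ, 1 ≤ m → (m : ℝ) ≤ Real.exp (√(y : ℝ)) →
      ∀ E : Finset ℕ, (E.card : ℝ) ≤ (y : ℝ) ^ b →
        (∀ r ∈ E, 1 ≤ r ∧ (r.primeFactors.card : ℝ) ≤ (y : ℝ) ^ (1 / 4 : ℝ) ∧
          ∑ l ∈ r.primeFactors.filter (fun l : ℕ => L < l), (1 / (l : ℝ)) ≤ δ) →
        (((Finset.range (y + 1)).filter (fun p : ℕ => p.Prime ∧ ∃ r ∈ E,
          ∃ x : ℕ, ((y : ℝ) ^ C ≤ x ∧ (x : ℝ) ≤ Real.exp ((y : ℝ) ^ α)) ∧
            ε * (Nat.primeCounting x : ℝ) <
              |(S r (m * p) x : ℝ) - A * (Nat.primeCounting x : ℝ)|)).card : ℝ) ≤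
          (y : ℝ) ^ θ := by
  obtain ⟨θ', hθ', hall⟩ := primesAll α θ C hα hθ hθ1 hC hCθ
  set b : ℝ := (θ - θ') / 2 with hbdef
  have hb : 0 < b := by rw [hbdef]; linarith
  refine ⟨b, hb, fun ε hε => ?_⟩
  obtain ⟨δ1, hδ1, hfam1⟩ := famA_primes C hC α θ' hall ε hε
  refine ⟨δ1, hδ1, fun L => ?_⟩
  obtain ⟨N₂, hN₂⟩ := hfam1 L
  have hpow : ∀ᶠ y : ℕ in atTop, 2 ≤ (y : ℝ) ^ b :=
    ((tendsto_rpow_atTop hb).comp tendsto_natCast_atTop_atTop).eventually_ge_atTop _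
  obtain ⟨N₃, hN₃⟩ := eventually_atTop.1 hpow
  refine ⟨max N₃ (max N₂ 1), fun y hy m hm hmy E hEc hE => ?_⟩
  have hA3 : N₃ ≤ y := (le_max_left _ _).trans hy
  have hA2 : N₂ ≤ y := (le_max_left _ _).trans ((le_max_right _ _).trans hy)
  have hA4 : 1 ≤ y := (le_max_right _ _).trans ((le_max_right _ _).trans hy)
  have hy1 : (1 : ℝ) ≤ y := by exact_mod_cast hA4
  have hy0 : (0 : ℝ) < y := by linarith
  have hm0 : (0 : ℝ) < m := by exact_mod_cast hm
  have hml : Real.log m ≤ √(y : ℝ) := by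
    rw [Real.log_le_iff_le_exp hm0]
    exact hmy
  have k3 := hN₃ y hA3
  set Bd := (Finset.range (y + 1)).filter (fun p : ℕ => p.Prime ∧ ∃ r ∈ E,
        ∃ x : ℕ, ((y : ℝ) ^ C ≤ x ∧ (x : ℝ) ≤ Real.exp ((y : ℝ) ^ α)) ∧
          ε * (Nat.primeCounting x : ℝ) <
            |(S r (m * p) x : ℝ) - A * (Nat.primeCounting x : ℝ)|) with hBd
  set F : ℕ → Finset ℕ := fun r =>
    if h : 0 < r then badG (datA ⟨r, h⟩) ε (C * Real.log y) ((y : ℝ) ^ α) m y else ∅ with hF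
  have hsub : Bd ⊆ E.biUnion F := by
    intro q hq
    rw [hBd, mem_filter] at hq
    obtain ⟨hqr, hqp, r, hrE, x, ⟨hx1, hx2⟩, hx3⟩ := hq
    rw [mem_biUnion]
    refine ⟨r, hrE, ?_⟩
    have hr0 : 0 < r := (hE r hrE).1
    simp only [hF]
    rw [dif_pos hr0, badG, mem_filter]
    refine ⟨?_, x, ?_, ?_, ?_⟩
    · rw [Pool.Agent.H386R2.Artin.PP, mem_filter]
      exact ⟨hqr, hqp⟩
    · rw [← Real.log_rpow hy0]
      exact Real.log_le_log (by positivity) hx1
    · have hx0 : (0 : ℝ) < x := lt_of_lt_of_le (by positivity) hx1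
      rw [Real.log_le_iff_le_exp hx0]
      exact hx2
    · have e : S r (m * q) x = cntE (datA ⟨r, hr0⟩) (m * q) x := by
        unfold S cntE
        apply congrArg Finset.card
        apply Finset.filter_congr_decidable _ _ _ |>.symm.trans
        apply Finset.filter_congr
        intro p _
        have hQ : (datA ⟨r, hr0⟩).Q p ((m * q : ℕ) : ZMod p) ↔
            (p % 4 = 3 ∧ (orderOf (2 * ((m * q : ℕ) : ZMod p) ^ r) = p - 1 ∨
              2 * orderOf (2 * ((m * q : ℕ) : ZMod p) ^ r) = p - 1)) := datA_Q ⟨r, hr0⟩ p _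
        have hc : ((2 * (m * q) ^ r : ℕ) : ZMod p) = 2 * ((m * q : ℕ) : ZMod p) ^ r := by
          push_cast; rfl
        exact and_congr_right fun _ => (by rw [hc]; exact hQ.symm)
      have e2 : (datA ⟨r, hr0⟩).A = A := rfl
      rw [← e, e2]
      exact hx3
  have h4 := (card_le_card hsub).trans card_biUnion_le
  have h5 : (#Bd : ℝ) ≤ ∑ r ∈ E, (#(F r) : ℝ) := by exact_mod_cast h4
  have h6 : ∑ r ∈ E, (#(F r) : ℝ) ≤ (y : ℝ) ^ b * (2 * (y : ℝ) ^ θ') := by
    calc ∑ r ∈ E, (#(F r) : ℝ)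
        ≤ ∑ r ∈ E, 2 * (y : ℝ) ^ θ' := by
          refine sum_le_sum fun r hr => ?_
          have hr0 : 0 < r := (hE r hr).1
          simp only [hF]
          rw [dif_pos hr0]
          exact hN₂ y hA2 ⟨r, hr0⟩ (hE r hr).2 m hm hml
      _ = (E.card : ℝ) * (2 * (y : ℝ) ^ θ') := by
          rw [sum_const, nsmul_eq_mul]
      _ ≤ _ := by gcongr
  refine h5.trans (h6.trans ?_)
  have h7 : (y : ℝ) ^ θ = (y : ℝ) ^ b * ((y : ℝ) ^ b * (y : ℝ) ^ θ') := by
    rw [← Real.rpow_add hy0, ← Real.rpow_add hy0]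
    congr 1
    rw [hbdef]
    ring
  rw [h7]
  gcongr

end Pool.Agent.Results.MP_48b1c3_nt.ManyExponentsPrimes
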